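import Pool.Agent.J4H22.WA.Guess

/-!
# Advice for complements: the gap
-/

set_option autoImplicit false

namespace Pool.Agent.J4H22.GA

open Pool.Agent.NPC Pool.Agent.H620R2.Gauge Pool.Agent.H622R2.Exp Pool.Agent.H622R2
open Pool.Agent.J4H22.WA

/-- `L` is in the class `C` with at most `a(n)` bits of advice at length `n`. -/
def Advice (C : Set (List Bool) → Prop) (a : ℕ → ℝ) (L : Set (List Bool)) : Prop :=
  ∃ T : Set (List Bool), C T ∧ ∃ w : ℕ → List Bool, (∀ n, ((w n).length : ℝ) ≤ a n) ∧
    ∀ x : List Bool, x ∈ L ↔ pairBits (w x.length) x ∈ T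

theorem Advice.mono {C : Set (List Bool) → Prop} {a b : ℕ → ℝ} {L : Set (List Bool)}
    (h : Advice C a L) (hab : ∀ n, a n ≤ b n) : Advice C b L := by
  obtain ⟨T, hT, w, hw, hx⟩ := h
  exact ⟨T, hT, w, fun n => (hw n).trans (hab n), hx⟩

theorem rep_inj (b : Bool) : ∀ (r r' : ℕ) (a a' : List Bool),
    List.replicate r b ++ (!b) :: a = List.replicate r' b ++ (!b) :: a' → r = r' ∧ a = a'
  | 0, 0, a, a', h => by
    simp only [List.replicate_zero, List.nil_append, List.cons.injEq, true_and] at h
    exact ⟨rfl, h⟩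
  | 0, r' + 1, a, a', h => by
    simp only [List.replicate_zero, List.nil_append, List.replicate_succ, List.cons_append,
      List.cons.injEq] at h
    cases b <;> simp at h
  | r + 1, 0, a, a', h => by
    simp only [List.replicate_zero, List.nil_append, List.replicate_succ, List.cons_append,
      List.cons.injEq] at h
    cases b <;> simp at h
  | r + 1, r' + 1, a, a', h => by
    simp only [List.replicate_succ, List.cons_append, List.cons.injEq, true_and] at h
    obtain ⟨h1, h2⟩ := rep_inj b r r' a a' h
    exact ⟨by rw [h1], h2⟩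

/-- the code of the length `n` and the advice `α` -/
def enc (K M C n : ℕ) (α : List Bool) : List Bool :=
  List.replicate (n % K) true ++ false ::
    (α ++ true :: List.replicate (M * (n / K) + C - (n % K + α.length + 2)) false)

/-- the advice is short enough -/
def fits (K M C n l : ℕ) : Prop := n % K + l + 2 ≤ M * (n / K) + C

instance (K M C n l : ℕ) : Decidable (fits K M C n l) := by
  unfold fits
  infer_instance

theorem length_enc {K M C n : ℕ} {α : List Bool} (h : fits K M C n α.length) :
    (enc K M C n α).length = M * (n / K) + C := by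
  unfold fits at h
  unfold enc
  simp only [List.length_append, List.length_replicate, List.length_cons]
  omega

theorem enc_inj {K M C n n' : ℕ} {α α' : List Bool} (hM : 0 < M)
    (h : fits K M C n α.length) (h' : fits K M C n' α'.length)
    (he : enc K M C n α = enc K M C n' α') : n = n' ∧ α = α' := by
  have h1 := length_enc h
  rw [he, length_enc h'] at h1
  have h2 : n / K = n' / K := by
    have h3 : M * (n' / K) = M * (n / K) := by omega
    exact (Nat.eq_of_mul_eq_mul_left hM h3).symm
  unfold enc at he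
  obtain ⟨h4, h5⟩ := rep_inj true _ _ _ _ he
  have h6 : n = n' := by
    rw [← Nat.div_add_mod n K, ← Nat.div_add_mod n' K, h2, h4]
  refine ⟨h6, ?_⟩
  have h7 := congrArg List.reverse h5
  simp only [List.reverse_append, List.reverse_cons, List.reverse_replicate, List.append_assoc,
    List.singleton_append] at h7
  obtain ⟨-, h8⟩ := rep_inj false _ _ _ _ h7
  exact List.reverse_injective h8

theorem poly_rep {α : Type} [TEnc α] {n : α → ℕ} (hn : UPoly n) (b : Bool) :
    Poly (fun a => List.replicate (n a) b) := by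
  have h : Poly (fun a => (List.range (n a)).map fun _ => b) :=
    NPC.Poly.map (F := fun _ _ => b) (UPoly.range hn) (NPC.Poly.const b)
  exact h.congr (fun a => by simp)

theorem upoly_mod {α : Type} [TEnc α] {n : α → ℕ} (hn : UPoly n) (K : ℕ) :
    UPoly (fun a => n a % K) :=
  UPoly.of_le (Poly.mod (UPoly.toPoly hn) (NPC.Poly.const K)) hn (fun _ => Nat.mod_le _ _)

theorem upoly_div {α : Type} [TEnc α] {n : α → ℕ} (hn : UPoly n) (K : ℕ) :
    UPoly (fun a => n a / K) :=
  UPoly.of_le (Poly.div (UPoly.toPoly hn) (NPC.Poly.const K)) hn (fun _ => Nat.div_le_self _ _)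

theorem upoly_sub {α : Type} [TEnc α] {m n : α → ℕ} (hm : UPoly m) (hn : UPoly n) :
    UPoly (fun a => m a - n a) :=
  UPoly.of_le (Poly.sub (UPoly.toPoly hm) (UPoly.toPoly hn)) hm (fun _ => Nat.sub_le _ _)

theorem poly_enc {α : Type} [TEnc α] (K M C : ℕ) {n : α → ℕ} {w : α → List Bool} (hn : UPoly n)
    (hw : Poly w) : Poly (fun a => enc K M C (n a) (w a)) := by
  have h1 := upoly_mod hn K
  have h2 : UPoly (fun a => M * (n a / K) + C) :=
    UPoly.add (UPoly.mul (UPoly.const M) (upoly_div hn K)) (UPoly.const C)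
  have h3 : UPoly (fun a => n a % K + (w a).length + 2) :=
    UPoly.add (UPoly.add h1 (UPoly.length hw)) (UPoly.const 2)
  unfold enc
  exact Poly.append (poly_rep h1 true) (Poly.cons (NPC.Poly.const false)
    (Poly.append hw (Poly.cons (NPC.Poly.const true) (poly_rep (upoly_sub h2 h3) false))))

theorem poly_fits {α : Type} [TEnc α] (K M C : ℕ) {n l : α → ℕ} (hn : UPoly n)
    (hl : UPoly l) : Poly (fun a => decide (fits K M C (n a) (l a))) := by
  have h1 := upoly_mod hn K
  have h2 : UPoly (fun a => M * (n a / K) + C) :=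
    UPoly.add (UPoly.mul (UPoly.const M) (upoly_div hn K)) (UPoly.const C)
  have h3 : UPoly (fun a => n a % K + l a + 2) :=
    UPoly.add (UPoly.add h1 hl) (UPoly.const 2)
  exact (Poly.decide_le (UPoly.toPoly h3) (UPoly.toPoly h2)).congr (fun a => rfl)

variable {E : Set (Polynomial ℕ)} {A : Oracle}

/-- the codes of the refuted advices -/
def Ref (K M C : ℕ) (S T : Set (List Bool)) : Set (List Bool) :=
  {z | ∃ x α : List Bool, z = enc K M C x.length α ∧ fits K M C x.length α.length ∧ x ∈ S ∧
    pairBits α x ∈ T}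

theorem lt_two_pow_lin (c n : ℕ) : c * (n + 1) ≤ 2 ^ (Polynomial.C c * (Polynomial.X + 1) :
    Polynomial ℕ).eval n := by
  rw [YAux.eval_lin]
  exact Nat.lt_two_pow_self.le

/-- the bounds from a code -/
theorem code_bounds {K M C : ℕ} (hK : 0 < K) (hM : 0 < M) {x α : List Bool}
    (h : fits K M C x.length α.length) :
    x.length ≤ K * ((enc K M C x.length α).length + 1) ∧
    α.length ≤ (enc K M C x.length α).length := by
  rw [length_enc h]
  unfold fits at h
  constructor
  · have h1 := Nat.div_add_mod x.length K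
    have h2 := Nat.mod_lt x.length hK
    have h3 : x.length / K ≤ M * (x.length / K) := Nat.le_mul_of_pos_left _ hM
    have h4 : K * (x.length / K) ≤ K * (M * (x.length / K) + C) :=
      Nat.mul_le_mul_left _ (by omega)
    calc x.length ≤ K * (x.length / K) + K := by omega
      _ ≤ K * (M * (x.length / K) + C) + K := by omega
      _ = K * (M * (x.length / K) + C + 1) := by ring
  · omega

theorem Ref.mem (hE : Good E) (hE2 : Good2 E) {K M C : ℕ} (hK : 0 < K) (hM : 0 < M)
    {S T : Set (List Bool)} (hS : InNTime E A S) (hT : InNTime E A T) :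
    InNTime E A (Ref K M C S T) := by
  have hj := InNTime.join hE hS hT
  -- the test
  have px : Poly (fun p : List Bool × List Bool => (unpair p.2).2) :=
    Poly.snd (poly_unpair.comp (Poly.snd Poly.id))
  have pa : Poly (fun p : List Bool × List Bool => (unpair p.2).1) :=
    Poly.fst (poly_unpair.comp (Poly.snd Poly.id))
  have hΦ : Poly (fun p : List Bool × List Bool =>
      decide (p.1 = enc K M C (unpair p.2).2.length (unpair p.2).1) &&
        decide (fits K M C (unpair p.2).2.length (unpair p.2).1.length)) :=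
    Poly.and (Poly.decide_eq (Poly.fst Poly.id) (poly_enc K M C (UPoly.length px) pa))
      (poly_fits K M C (UPoly.length px) (UPoly.length pa))
  have hY : Poly (fun p : List Bool × List Bool =>
      if (decide (p.1 = enc K M C (unpair p.2).2.length (unpair p.2).1) &&
        decide (fits K M C (unpair p.2).2.length (unpair p.2).1.length)) = true then
        [true :: (unpair p.2).2, false :: pairBits (unpair p.2).1 (unpair p.2).2] else []) :=
    Poly.ite (Poly.decide_bool hΦ) (Poly.cons (Poly.cons (NPC.Poly.const true) px)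
      (Poly.cons (Poly.cons (NPC.Poly.const false) (poly_pairBits pa px)) (NPC.Poly.const [])))
      (NPC.Poly.const [])
  have h := InNTime.guess hE hE2 hj (hE.lin (K + 3)) (K + 3) hY hΦ (by
    intro v g y hy
    dsimp only at hy
    split_ifs at hy with h1
    · rw [Bool.and_eq_true, decide_eq_true_iff, decide_eq_true_iff] at h1
      obtain ⟨h2, h3⟩ := code_bounds hK hM h1.2
      rw [← h1.1] at h2 h3
      rw [List.mem_cons, List.mem_singleton] at hy
      rcases hy with rfl | rfl
      · rw [List.length_cons]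
        nlinarith
      · rw [List.length_cons, length_pairBits]
        nlinarith
    · simp at hy)
  refine (congrArg (InNTime E A) (Set.ext fun z => ?_)).mp h
  simp only [Set.mem_ofPred_eq]
  constructor
  · rintro ⟨g, -, h1, h2⟩
    rw [if_pos h1] at h2
    rw [Bool.and_eq_true, decide_eq_true_iff, decide_eq_true_iff] at h1
    refine ⟨(unpair g).2, (unpair g).1, h1.1, h1.2, ?_, ?_⟩
    · exact true_mem_jn.1 (h2 _ (by simp))
    · exact false_mem_jn.1 (h2 _ (by simp))
  · rintro ⟨x, α, h1, h2, h3, h4⟩
    obtain ⟨h5, h6⟩ := code_bounds hK hM h2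
    rw [← h1] at h5 h6
    refine ⟨pairBits α x, ?_, ?_, ?_⟩
    · refine le_trans ?_ (lt_two_pow_lin (K + 3) z.length)
      rw [length_pairBits]
      nlinarith
    · rw [unpair_pairBits, Bool.and_eq_true, decide_eq_true_iff, decide_eq_true_iff]
      exact ⟨h1, h2⟩
    · intro y hy
      rw [unpair_pairBits] at hy
      split_ifs at hy
      · rw [List.mem_cons, List.mem_singleton] at hy
        rcases hy with rfl | rfl
        · exact true_mem_jn.2 h3
        · exact false_mem_jn.2 h4
      · simp at hy

/-- the new language with advice -/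
def Nxt (K M C : ℕ) (T' T : Set (List Bool)) : Set (List Bool) :=
  {v | ∃ α : List Bool, fits K M C (unpair v).2.length α.length ∧
    pairBits (unpair v).1 (enc K M C (unpair v).2.length α) ∈ T' ∧
    pairBits α (unpair v).2 ∈ T}

theorem ustep_len (s : List Bool × List Bool × Bool) :
    (ustep s).1.length + (ustep s).2.1.length ≤ s.1.length + s.2.1.length := by
  obtain ⟨a, l, b⟩ := s
  unfold ustep
  dsimp only
  split_ifs with h
  · exact le_refl _
  · rcases l with _ | ⟨b', l⟩
    · exact le_refl _
    · dsimp only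
      split_ifs with h2
      · rcases l with _ | ⟨c, l'⟩
        · exact le_refl _
        · dsimp only
          simp only [List.length_cons]
          omega
      · simp only [List.length_cons]
        omega

theorem ustep_iter_len : ∀ (k : ℕ) (s : List Bool × List Bool × Bool),
    (ustep^[k] s).1.length + (ustep^[k] s).2.1.length ≤ s.1.length + s.2.1.length
  | 0, s => le_refl _
  | k + 1, s => by
    rw [Function.iterate_succ_apply]
    exact (ustep_iter_len k (ustep s)).trans (ustep_len s)

theorem unpair_len (v : List Bool) : (unpair v).1.length ≤ v.length ∧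
    (unpair v).2.length ≤ v.length := by
  have h := ustep_iter_len v.length ([], v, false)
  simp only [List.length_nil, zero_add] at h
  have e1 : (unpair v).1.length = (ustep^[v.length] ([], v, false)).1.length := by
    unfold unpair
    exact List.length_reverse
  have e2 : (unpair v).2 = (ustep^[v.length] ([], v, false)).2.1 := rfl
  rw [e1, e2]
  omega

theorem Nxt.mem (hE : Good E) (hE2 : Good2 E) {K M C : ℕ}
    {T' T : Set (List Bool)} (hT' : InNTime E A T') (hT : InNTime E A T) :
    InNTime E A (Nxt K M C T' T) := by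
  have hj := InNTime.join hE hT' hT
  have pu : Poly (fun p : List Bool × List Bool => (unpair p.1).1) :=
    Poly.fst (poly_unpair.comp (Poly.fst Poly.id))
  have px : Poly (fun p : List Bool × List Bool => (unpair p.1).2) :=
    Poly.snd (poly_unpair.comp (Poly.fst Poly.id))
  have pg : Poly (fun p : List Bool × List Bool => p.2) := Poly.snd Poly.id
  have hΦ : Poly (fun p : List Bool × List Bool =>
      decide (fits K M C (unpair p.1).2.length p.2.length)) :=
    poly_fits K M C (UPoly.length px) (UPoly.length pg)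
  have hY : Poly (fun p : List Bool × List Bool =>
      if fits K M C (unpair p.1).2.length p.2.length then
        [true :: pairBits (unpair p.1).1 (enc K M C (unpair p.1).2.length p.2),
          false :: pairBits p.2 (unpair p.1).2] else []) :=
    Poly.ite hΦ (Poly.cons (Poly.cons (NPC.Poly.const true)
      (poly_pairBits pu (poly_enc K M C (UPoly.length px) pg)))
      (Poly.cons (Poly.cons (NPC.Poly.const false) (poly_pairBits pg px)) (NPC.Poly.const [])))
      (NPC.Poly.const [])
  have hlen : ∀ (v g : List Bool), fits K M C (unpair v).2.length g.length →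
      g.length ≤ M * v.length + C ∧
      (enc K M C (unpair v).2.length g).length ≤ M * v.length + C := by
    intro v g h
    rw [length_enc h]
    have h1 := (unpair_len v).2
    have h2 : M * ((unpair v).2.length / K) ≤ M * v.length :=
      Nat.mul_le_mul_left _ ((Nat.div_le_self _ _).trans h1)
    unfold fits at h
    omega
  have h := InNTime.guess hE hE2 hj (hE.lin (M + C + 1)) (2 * M + 2 * C + 5) hY hΦ (by
    intro v g y hy
    dsimp only at hy
    split_ifs at hy with h1
    · obtain ⟨h2, h3⟩ := hlen v g h1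
      have h4 := unpair_len v
      rw [List.mem_cons, List.mem_singleton] at hy
      rcases hy with rfl | rfl
      · rw [List.length_cons, length_pairBits]
        nlinarith
      · rw [List.length_cons, length_pairBits]
        nlinarith
    · simp at hy)
  refine (congrArg (InNTime E A) (Set.ext fun v => ?_)).mp h
  simp only [Set.mem_ofPred_eq]
  constructor
  · rintro ⟨g, -, h1, h2⟩
    rw [decide_eq_true_iff] at h1
    rw [if_pos h1] at h2
    refine ⟨g, h1, ?_, ?_⟩
    · exact true_mem_jn.1 (h2 _ (by simp))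
    · exact false_mem_jn.1 (h2 _ (by simp))
  · rintro ⟨α, h1, h2, h3⟩
    refine ⟨α, ?_, decide_eq_true h1, ?_⟩
    · refine le_trans ?_ (lt_two_pow_lin (M + C + 1) v.length)
      have := (hlen v α h1).1
      nlinarith
    · intro y hy
      split_ifs at hy
      · rw [List.mem_cons, List.mem_singleton] at hy
        rcases hy with rfl | rfl
        · exact true_mem_jn.2 h2
        · exact false_mem_jn.2 h3
      

/-- one step -/
theorem step (hE : Good E) (hE2 : Good2 E) {β γ β' : ℝ} (hβ : 0 < β) (hγ : β < γ) (hβ' : 0 ≤ β')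
    (h : ∀ S, InNTime E A S → ∃ c : ℝ, Advice (InNTime E A) (fun n => β * n + c) Sᶜ)
    (h' : ∀ S, InNTime E A S → ∃ c : ℝ, Advice (InNTime E A) (fun n => β' * n + c) Sᶜ) :
    ∀ S, InNTime E A S → ∃ c : ℝ, Advice (InNTime E A) (fun n => β' * γ * n + c) Sᶜ := by
  intro S hS
  obtain ⟨c, T, hT, w, hw, hx⟩ := h S hS
  -- the parameters
  obtain ⟨K, hK⟩ : ∃ K : ℕ, 1 / (γ - β) < K := exists_nat_gt _
  have hγβ : 0 < γ - β := sub_pos.2 hγ
  have hK0 : 0 < K := by
    have h1 : (0 : ℝ) < K := lt_trans (by positivity) hK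
    exact_mod_cast h1
  have hKr : (0 : ℝ) < K := by exact_mod_cast hK0
  have hK1 : 1 < K * (γ - β) := by
    rw [div_lt_iff₀ hγβ] at hK
    exact hK
  set M : ℕ := ⌈β * K⌉₊ with hM
  have hM1 : β * K ≤ M := Nat.le_ceil _
  have hM0 : 0 < M := Nat.ceil_pos.2 (by positivity)
  have hM2 : (M : ℝ) ≤ γ * K := by
    have h1 : (M : ℝ) < β * K + 1 := Nat.ceil_lt_add_one (by positivity)
    nlinarith
  obtain ⟨c0, hc0⟩ : ∃ c0 : ℕ, c < c0 := exists_nat_gt _
  set C : ℕ := M + c0 + K + 2 with hC
  have hfit : ∀ n, fits K M C n (w n).length := by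
    intro n
    unfold fits
    have h1 := Nat.div_add_mod n K
    have h2 := Nat.mod_lt n hK0
    have h3 : ((w n).length : ℝ) ≤ M * (n / K : ℕ) + M + c0 := by
      refine (hw n).trans ?_
      have h4 : (n : ℝ) ≤ K * ((n / K : ℕ) : ℝ) + K := by
        have : n ≤ K * (n / K) + K := by omega
        exact_mod_cast this
      have h5 : β * n ≤ (β * K) * (n / K : ℕ) + β * K := by nlinarith
      have h6 : (β * K) * ((n / K : ℕ) : ℝ) ≤ M * ((n / K : ℕ) : ℝ) :=
        mul_le_mul_of_nonneg_right hM1 (Nat.cast_nonneg _)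
      linarith
    have h7 : (w n).length ≤ M * (n / K) + M + c0 := by exact_mod_cast h3
    omega
  -- the refuted advices
  obtain ⟨c', T', hT', w', hw', hx'⟩ := h' (Ref K M C S T) (Ref.mem hE hE2 hK0 hM0 hS hT)
  refine ⟨β' * C + c', Nxt K M C T' T, Nxt.mem hE hE2 hT' hT, fun n => w' (M * (n / K) + C),
    fun n => ?_, fun x => ?_⟩
  · refine (hw' _).trans ?_
    push_cast
    have h4 : (M : ℝ) * ((n / K : ℕ) : ℝ) ≤ γ * n := by
      have h5 : (K : ℝ) * ((n / K : ℕ) : ℝ) ≤ n := by
        have : K * (n / K) ≤ n := Nat.mul_div_le n K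
        exact_mod_cast this
      calc (M : ℝ) * ((n / K : ℕ) : ℝ) ≤ (γ * K) * ((n / K : ℕ) : ℝ) :=
            mul_le_mul_of_nonneg_right hM2 (Nat.cast_nonneg _)
        _ = γ * (K * ((n / K : ℕ) : ℝ)) := by ring
        _ ≤ γ * n := mul_le_mul_of_nonneg_left h5 (by linarith)
    nlinarith
  · show x ∈ Sᶜ ↔ pairBits (w' (M * (x.length / K) + C)) x ∈ Nxt K M C T' T
    unfold Nxt
    rw [Set.mem_ofPred_eq, unpair_pairBits]
    constructor
    · intro hxS
      refine ⟨w x.length, hfit _, ?_, (hx x).1 hxS⟩
      have h1 := (hx' (enc K M C x.length (w x.length))).1 (by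
        rintro ⟨x', α', h2, h3, h4, h5⟩
        obtain ⟨h6, h7⟩ := enc_inj hM0 (hfit _) h3 h2
        rw [← h7, h6] at h5
        exact (hx x').2 h5 h4)
      rwa [length_enc (hfit _)] at h1
    · rintro ⟨α, h1, h2, h3⟩ hxS
      have h4 := (hx' (enc K M C x.length α)).2 (by rwa [length_enc h1])
      exact h4 ⟨x, α, rfl, h1, hxS, h3⟩

/-- the gap -/
theorem gap (hE : Good E) (hE2 : Good2 E) {β : ℝ} (hβ : β < 1)
    (h : ∀ S, InNTime E A S → ∃ c : ℝ, Advice (InNTime E A) (fun n => β * n + c) Sᶜ) {δ : ℝ}
    (hδ : 0 < δ) :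
    ∀ S, InNTime E A S → ∃ c : ℝ, Advice (InNTime E A) (fun n => δ * n + c) Sᶜ := by
  set b : ℝ := max β (1 / 2) with hb
  have hb0 : 0 < b := lt_of_lt_of_le (by norm_num) (le_max_right _ _)
  have hb1 : b < 1 := max_lt hβ (by norm_num)
  have hh : ∀ S, InNTime E A S → ∃ c : ℝ, Advice (InNTime E A) (fun n => b * n + c) Sᶜ := by
    intro S hS
    obtain ⟨c, hc⟩ := h S hS
    refine ⟨c, hc.mono fun n => ?_⟩
    have := mul_le_mul_of_nonneg_right (le_max_left β (1 / 2)) (Nat.cast_nonneg (α := ℝ) n)
    linarith
  set γ : ℝ := (b + 1) / 2 with hγ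
  have hγ0 : 0 < γ := by positivity
  have hγ1 : γ < 1 := by rw [hγ]; linarith
  have hbγ : b < γ := by rw [hγ]; linarith
  have key : ∀ i : ℕ, ∀ S, InNTime E A S →
      ∃ c : ℝ, Advice (InNTime E A) (fun n => b * γ ^ i * n + c) Sᶜ := by
    intro i
    induction i with
    | zero =>
      intro S hS
      obtain ⟨c, hc⟩ := hh S hS
      exact ⟨c, by simpa using hc⟩
    | succ i ih =>
      intro S hS
      obtain ⟨c, hc⟩ := step hE hE2 hb0 hbγ (by positivity) hh ih S hS
      refine ⟨c, ?_⟩
      have e : (fun n : ℕ => b * γ ^ (i + 1) * (n : ℝ) + c) =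
          fun n : ℕ => b * γ ^ i * γ * (n : ℝ) + c := by
        funext n
        rw [pow_succ]
        ring
      rw [e]
      exact hc
  obtain ⟨i, hi⟩ := exists_pow_lt_of_lt_one hδ hγ1
  intro S hS
  obtain ⟨c, hc⟩ := key i S hS
  refine ⟨c, hc.mono fun n => ?_⟩
  have h1 : b * γ ^ i ≤ δ := by
    have h2 : 0 ≤ γ ^ i := by positivity
    nlinarith
  have := mul_le_mul_of_nonneg_right h1 (Nat.cast_nonneg (α := ℝ) n)
  linarith

end Pool.Agent.J4H22.GA
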